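import Pool.Agent.H762.Three

set_option autoImplicit false

/-!
# Surgeries on the lifts of crossing circles to 3-fold cyclic branched covers of arborescent links

Take a link diagram that is built, as an arborescent link, from horizontal twist regions of two
antiparallel strings by sums (`Tangle.add`) and reflections in a diagonal (`Tangle.inv`) and by the
numerator closure at the end. Around the two strings of each twist region there is an unknotted circle,
whose linking number with the link is zero. So it has three lifts to the 3-fold cyclic cover of the
3-sphere branched along the link. Remove neighbourhoods of the three lifts of all these circles and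
glue in other manifolds (`Piece`), different ones on the three sheets and for the different twist
regions. For solid tori this is a Dehn surgery on the link of all lifts; if, for every region, the
three slopes are equal to the same integer then the result is again the 3-fold cyclic branched cover of
an arborescent link. Otherwise there is, in general, no cyclic symmetry.

`region P` is the tangle with one twist region and the three pieces `P 0`, `P 1`, `P 2`. Its
fundamental group is given by the lifts of the meridians of the two strings and by the pieces; the lift
`i` of the longitude of the circle is `u`, the lift `i` of the meridian is `v` in the piece `P i`.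
`Tangle.Cover` is the fundamental group of the manifold for the numerator closure.

`Low e s z S` is the bound for the tangle `S`: its slope is at least `-z` if `e = 1`, and at most `z` if
`e = -1`; more, or less, if `s` is true. For one region this is a condition on the three pieces
(`Admissible`); for solid tori the slopes of all three sheets have to satisfy the inequality, and there
is a similar condition for the twisted interval bundle over the Klein bottle and for Seifert fibred
spaces over the disc. The bounds are added for sums. The inverse of a positive tangle is positive; the inverse of a
tangle which is at least one is less than one, which is a bound of the other sign.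

The theorem: if `Low e true 0 S` then the fundamental group has no nontrivial homomorphism to a
left-orderable group; in particular it is not left-orderable.

The proof uses the comparison of families of order automorphisms over three sheets of
`Pool.Agent.Q184.TP`. New is the comparison for a region with three different pieces: if `u i` is the
loop around the two strings and `v i` moves points in the same direction as `u i` then conjugation by
the family `v` moves the meridians in one direction.
-/

namespace Pool.Agent.Results.MP_9ae2f3_gt.ThreeSheetedTangles

open Pool.Agent.Y479.LS Pool.Agent.Q184.TP Pool.Agent.H762.Three
open Pool.Agent.Q138.LO (Piece Filling)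

/-- Three slopes `1/2`, `1`, `7/3`, each of them positive, on the three sheets of one region. -/
abbrev P1 : ZMod 3 → Piece := ![torus 2 1, torus 1 1, torus 3 7]

/-- Three different pieces: a solid torus, a twisted interval bundle over the Klein bottle, and a
Seifert fibred space over the disc with two exceptional fibres. -/
abbrev P2 : ZMod 3 → Piece := ![torus 1 5, shifted 1 0 (Filling.klein 0 1 1 1),
  shifted 1 0 (Filling.seifert 2 ![2, 3] ![1, 1] 1 0 0 1)]

/-- the pieces `P1` are positive -/
theorem adm1 (i : ZMod 3) : Admissible 1 0 true (P1 i) := by
  fin_cases i
  · exact Admissible.torus 2 1 (by norm_num) (by norm_num) (fun _ => by norm_num)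
  · exact Admissible.torus 1 1 (by norm_num) (by norm_num) (fun _ => by norm_num)
  · exact Admissible.torus 3 7 (by norm_num) (by norm_num) (fun _ => by norm_num)

/-- the pieces `P2` are positive -/
theorem adm2 (i : ZMod 3) : Admissible 1 0 true (P2 i) := by
  fin_cases i
  · exact Admissible.torus 1 5 (by norm_num) (by norm_num) (fun _ => by norm_num)
  · exact Admissible.shifted (Filling.klein 0 1 1 1) ⟨by norm_num, by norm_num⟩
  · refine Admissible.shifted (Filling.seifert 2 ![2, 3] ![1, 1] 1 0 0 1) ⟨le_rfl, ?_, ?_, ?_, ?_⟩
    · decide
    · decide
    · exact Or.inl ⟨one_pos, 0, by decide⟩
    · exact Or.inr (Or.inl ⟨rfl, one_pos⟩)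

/-- Example: the sum of the inverses of three regions. -/
example : Low 1 true 0 (((region P1).inv.add (region P1).inv).add (region P1).inv) := by
  have h : Low 1 true 0 (region P1) := Low.region 1 0 true P1 adm1
  exact Low.add (Low.add h.inv h.inv) h.inv

/-- Example: a region with slope `5/2` on all sheets, plus the inverse of the sum of the inverse of the
region with the pieces `P2` and of the region with the pieces `P1`. -/
example : Low 1 true 0 ((region fun _ => torus 2 5).add ((region P2).inv.add (region P1)).inv) := by
  have h0 : Low 1 true 0 (region fun _ => torus 2 5) := Low.region 1 0 true _ fun i =>
    Admissible.torus 2 5 (by norm_num) (by norm_num) (fun _ => by norm_num)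
  have h1 : Low 1 true 0 (region P1) := Low.region 1 0 true P1 adm1
  have h2 : Low 1 true 0 (region P2) := Low.region 1 0 true P2 adm2
  exact Low.add h0 (Low.add h2.inv h1).inv

/-- Example with mixed signs: the slopes of the first region are at least `2`, those of the second
region are at most `-1`, so that its inverse is greater than `-1`. -/
example : Low 1 true 0 ((region ![torus 2 5, torus 1 3, torus 1 2]).add
    (region ![torus 2 (-3), torus 1 (-1), torus 3 (-5)]).inv) := by
  have h1 : Low 1 false (-2) (region ![torus 2 5, torus 1 3, torus 1 2]) := by
    refine Low.region 1 (-2) false _ fun i => ?_
    fin_cases i
    · exact Admissible.torus 2 5 (by norm_num) (by norm_num) (fun h => by simp at h)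
    · exact Admissible.torus 1 3 (by norm_num) (by norm_num) (fun h => by simp at h)
    · exact Admissible.torus 1 2 (by norm_num) (by norm_num) (fun h => by simp at h)
  have h2 : Low (-1) false (-1) (region ![torus 2 (-3), torus 1 (-1), torus 3 (-5)]) := by
    refine Low.region (-1) (-1) false _ fun i => ?_
    fin_cases i
    · exact Admissible.torus 2 (-3) (by norm_num) (by norm_num) (fun h => by simp at h)
    · exact Admissible.torus 1 (-1) (by norm_num) (by norm_num) (fun h => by simp at h)
    · exact Admissible.torus 3 (-5) (by norm_num) (by norm_num) (fun h => by simp at h)
  exact (h1.add h2.absorb).weaken

/-- **Three-sheeted tangles with pieces.** If the three-sheeted tangle `S` is positive, or negative,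
then every homomorphism from the fundamental group of the closed manifold to a left-orderable group is
trivial, and the fundamental group is not left-orderable. -/
theorem result (e : ℤ) (he : e = 1 ∨ e = -1) (S : Tangle) (h : Low e true 0 S) :
    (∀ (H : Type) [Group H], LeftOrderable H → ∀ (f : S.Cover →* H) (γ : S.Cover), f γ = 1) ∧
      ¬ LeftOrderable S.Cover := by
  obtain ⟨h1, h2, -, h4⟩ := low_main h he
  have key : ∀ (H : Type) [Group H], LeftOrderable H → ∀ (f : S.Cover →* H) (γ : S.Cover), f γ = 1 :=
    fun H _ hH f γ => Tangle.hom_trivial'
      (fun X _ ψ g => Tangle.cover_trivial h1 h2 he (h4 rfl) ψ g) H hH f γ
  refine ⟨key, fun hH => ?_⟩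
  obtain ⟨x, y, hxy⟩ := hH.1
  have h5 := key _ hH (MonoidHom.id _)
  exact hxy ((h5 x).trans (h5 y).symm)

end Pool.Agent.Results.MP_9ae2f3_gt.ThreeSheetedTangles
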